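import Pool.Agent.Helper18_X2.Stmts

set_option autoImplicit false

noncomputable section

namespace Pool.Agent.PP.X2.H77

open Pool.Agent.Helper51_AWC Pool.Agent.Helper79_WRA Pool.Agent.PP

/-- HYT. -/
theorem hyt : HytStmt := by
  intro ℓ F _ 𝒜 H _ h
  have key : ∀ (H' : Type) [Group H'], (∀ (A S : Type) [Group A] [Group S] (T : Subgroup A),
      IsSocle T S → Involves H' A → Involves H A) → Hyp ℓ F 𝒜 H' := by
    intro H' _ hH S _ _ hS hdvd hA D _ _ h1 h2 h3 e he hz hp
    obtain ⟨T, hT⟩ := h2.nearlySimple.socle hS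
    exact h S hS hdvd hA D h1 h2 (hH _ S T hT h3) e he hz hp
  refine ⟨?_, ?_, ?_⟩
  · intro H' _ p hp
    exact key H' (fun A S _ _ T hT hI => hT.involves_central p hp hI)
  · intro H' _ p hp
    exact key H' (fun A S _ _ T _ hI => hI.of_surjective p hp)
  · intro H' _ i hi
    exact key H' (fun A S _ _ T hT hI => hT.involves_prod i hi hI)

end Pool.Agent.PP.X2.H77
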